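import Pool.Agent.Y257.HP.Neg
import Pool.Agent.Y257.HP.Pos

set_option autoImplicit false

/-! # The homomorphism property of weakly amenable Banach algebras: the sharp growth threshold
(MP_7549e3_an, Q1)

A weakly amenable, semisimple commutative Banach algebra without the homomorphism property exists
among the Beurling algebras `ℓ¹(ℤ, Ω)` of every superpolynomial growth, however slow; conversely,
weakly amenable Beurling algebras of polynomial growth, and more generally weakly amenable algebras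
with finitely many invertible generators whose powers are polynomially bounded, have the
homomorphism property. -/

open Filter

namespace Pool.Agent.Results.MP_7549e3_an.GrowthThreshold

/-- A bounded linear map `D` from `A` to its dual is a derivation:
`D (a b) = a · D b + D a · b`, where `(a · f) x = f (x a)` and `(f · a) x = f (a x)`. -/
def IsDualDerivation (A : Type) [NormedCommRing A] [NormedAlgebra ℂ A]
    (D : A →L[ℂ] (A →L[ℂ] ℂ)) : Prop :=
  ∀ a b x : A, D (a * b) x = D b (x * a) + D a (b * x)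

/-- `D` is inner: `D a = a · f - f · a` for some `f` in the dual. -/
def IsInner (A : Type) [NormedCommRing A] [NormedAlgebra ℂ A]
    (D : A →L[ℂ] (A →L[ℂ] ℂ)) : Prop :=
  ∃ f : A →L[ℂ] ℂ, ∀ a x : A, D a x = f (x * a) - f (a * x)

/-- Every bounded derivation from `A` to its dual is inner. -/
def WeaklyAmenable (A : Type) [NormedCommRing A] [NormedAlgebra ℂ A] : Prop :=
  ∀ D : A →L[ℂ] (A →L[ℂ] ℂ), IsDualDerivation A D → IsInner A D

/-- The homomorphism property: two continuous algebra homomorphisms `φ`, `ψ` from `A` to a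
commutative complex Banach algebra `B` (not assumed to preserve the units) for which all
`φ a - ψ a` are in the Jacobson radical of `B` are equal. (It is enough to consider algebras `B`
with a unit: a commutative Banach algebra without unit is a closed ideal of its unitization, and
its radical is contained in the radical of the unitization.) -/
def HomomorphismProperty (A : Type) [NormedCommRing A] [NormedAlgebra ℂ A] : Prop :=
  ∀ (B : Type) [NormedCommRing B] [NormedAlgebra ℂ B] [CompleteSpace B] (φ ψ : A →ₙₐ[ℂ] B),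
    Continuous φ → Continuous ψ → (∀ a, φ a - ψ a ∈ (⊥ : Ideal B).jacobson) → φ = ψ

/-- `Ω` is a weight on `ℤ`. -/
def IsWeight (Ω : ℤ → ℝ) : Prop := (∀ n, 1 ≤ Ω n) ∧ ∀ m n, Ω (m + n) ≤ Ω m * Ω n

/-- `A` is the Beurling algebra `ℓ¹(ℤ, Ω)`: the completion of the group algebra of `ℤ` with the
norm `∑ |P n| Ω n`. -/
def IsBeurling (Ω : ℤ → ℝ) (A : Type) [NormedCommRing A] [NormedAlgebra ℂ A] : Prop :=
  ∃ ι : AddMonoidAlgebra ℂ ℤ →ₐ[ℂ] A, DenseRange ι ∧
    ∀ P, ‖ι P‖ = ∑ n ∈ P.coeff.support, ‖P.coeff n‖ * Ω n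

lemma wa_of {A : Type} [NormedCommRing A] [NormedAlgebra ℂ A] (h : WeaklyAmenable A) :
    Pool.Agent.Y257.HP.WA A := by
  intro D hD
  obtain ⟨f, hf⟩ := h D hD
  ext a x
  rw [hf, mul_comm x a, sub_self]
  rfl

/-- a continuous homomorphism as a continuous linear map -/
noncomputable def toL {A B : Type} [NormedCommRing A] [NormedAlgebra ℂ A] [NormedCommRing B]
    [NormedAlgebra ℂ B] (φ : A →ₙₐ[ℂ] B) (h : Continuous φ) : A →L[ℂ] B :=
  ⟨{ toFun := φ, map_add' := map_add φ, map_smul' := map_smul φ }, h⟩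

lemma eq_of {A B : Type} [NormedCommRing A] [NormedAlgebra ℂ A] [NormedCommRing B]
    [NormedAlgebra ℂ B] (φ ψ : A →ₙₐ[ℂ] B) (h : Continuous φ) (h' : Continuous ψ)
    (e : toL φ h = toL ψ h') : φ = ψ := by
  ext a
  exact congrArg (fun f : A →L[ℂ] B => f a) e

theorem fin_gen {A : Type} [NormedCommRing A] [NormedAlgebra ℂ A] (hW : WeaklyAmenable A) {m : ℕ}
    (g g' : Fin m → A) (hg : ∀ i, g i * g' i = 1)
    (hd : Dense ((Algebra.adjoin ℂ (Set.range g ∪ Set.range g') : Subalgebra ℂ A) : Set A))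
    (C : ℝ) (k : ℕ) (h1 : ∀ i (n : ℕ), ‖g i ^ n‖ ≤ C * ((n : ℝ) + 1) ^ k)
    (h2 : ∀ i (n : ℕ), ‖g' i ^ n‖ ≤ C * ((n : ℝ) + 1) ^ k) : HomomorphismProperty A := by
  intro B _ _ _ φ ψ hφ hψ hrad
  exact eq_of φ ψ hφ hψ (Pool.Agent.Y257.HP.fin_main (wa_of hW) g g' hg hd h1 h2 (toL φ hφ)
    (toL ψ hψ) (fun a b => map_mul φ a b) (fun a b => map_mul ψ a b) hrad)

theorem beurling {Ω : ℤ → ℝ} {A : Type} [NormedCommRing A] [NormedAlgebra ℂ A]
    (hA : IsBeurling Ω A) {C : ℝ} {k : ℕ} (hΩ : ∀ n : ℤ, Ω n ≤ C * (|(n : ℝ)| + 1) ^ k)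
    (hW : WeaklyAmenable A) : HomomorphismProperty A := by
  obtain ⟨ι, hι, hn⟩ := hA
  have hpow : ∀ (s : ℤ) (n : ℕ), (AddMonoidAlgebra.single s 1 : AddMonoidAlgebra ℂ ℤ) ^ n =
      AddMonoidAlgebra.single ((n : ℤ) * s) 1 := by
    intro s n
    rw [AddMonoidAlgebra.single_pow, one_pow]
    simp
  have hnorm : ∀ s : ℤ, ‖ι (AddMonoidAlgebra.single s 1)‖ = Ω s := by
    intro s
    rw [hn]
    have : (AddMonoidAlgebra.single s (1 : ℂ)).coeff.support = {s} := by
      rw [AddMonoidAlgebra.coeff_single]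
      exact Finsupp.support_single_ne_zero _ one_ne_zero
    rw [this, Finset.sum_singleton, AddMonoidAlgebra.coeff_single]
    simp
  refine fin_gen hW (m := 1) (fun _ => ι (AddMonoidAlgebra.single 1 1))
    (fun _ => ι (AddMonoidAlgebra.single (-1) 1)) (fun _ => ?_) ?_ C k
    (fun _ n => ?_) (fun _ n => ?_)
  · rw [← map_mul, AddMonoidAlgebra.single_mul_single, mul_one]
    have : (AddMonoidAlgebra.single ((1 : ℤ) + -1) 1 : AddMonoidAlgebra ℂ ℤ) = 1 := by
      rw [add_neg_cancel, AddMonoidAlgebra.one_def]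
    rw [this, map_one]
  · refine hι.mono ?_
    rintro _ ⟨P, rfl⟩
    have hmono : ∀ n : ℤ, ι (AddMonoidAlgebra.single n 1) ∈ Algebra.adjoin ℂ
        (Set.range (fun _ : Fin 1 => ι (AddMonoidAlgebra.single 1 1)) ∪
          Set.range (fun _ : Fin 1 => ι (AddMonoidAlgebra.single (-1) 1)) : Set A) := by
      intro n
      obtain ⟨k, rfl | rfl⟩ := n.eq_nat_or_neg
      · have := hpow 1 k
        rw [mul_one] at this
        rw [← this, map_pow]
        refine pow_mem (Algebra.subset_adjoin ?_) k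
        exact Or.inl ⟨0, rfl⟩
      · have := hpow (-1) k
        rw [mul_neg_one] at this
        rw [← this, map_pow]
        refine pow_mem (Algebra.subset_adjoin ?_) k
        exact Or.inr ⟨0, rfl⟩
    show ι P ∈ Algebra.adjoin ℂ _
    induction P using AddMonoidAlgebra.induction_linear with
    | zero => rw [map_zero]; exact zero_mem _
    | add P Q h1 h2 => rw [map_add]; exact add_mem h1 h2
    | single n c =>
      have : (AddMonoidAlgebra.single n c : AddMonoidAlgebra ℂ ℤ) =
          c • AddMonoidAlgebra.single n 1 := by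
        rw [AddMonoidAlgebra.smul_single, smul_eq_mul, mul_one]
      rw [this, map_smul]
      exact Subalgebra.smul_mem _ (hmono n) c
  · rw [← map_pow, hpow, hnorm, mul_one]
    have := hΩ n
    simpa using this
  · rw [← map_pow, hpow, hnorm, mul_neg_one]
    have := hΩ (-n)
    simpa using this

/-- **The sharp growth threshold for the homomorphism property of weakly amenable algebras.**
(1) For every function `ρ` of superpolynomial growth there is a weight `Ω` on `ℤ` with
`Ω n ≤ ρ |n|` for all large `|n|` (and `Ω n ≤ exp √|n|` for all `n`) whose Beurling algebra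
`A = ℓ¹(ℤ, Ω)` is semisimple, not radical and weakly amenable and does not have the homomorphism
property: there are a commutative Banach algebra `B` and continuous unital homomorphisms `φ ≠ ψ`
from `A` to `B` with all `φ a - ψ a` in the radical of `B`.
(2) Superpolynomial growth is necessary: every weakly amenable Beurling algebra `ℓ¹(ℤ, Ω)` with
`Ω n ≤ C (1 + |n|) ^ k` has the homomorphism property.
(3) More generally, so has every weakly amenable commutative Banach algebra which is topologically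
generated by finitely many invertible elements `g i` and their inverses, all with polynomially
bounded powers (for instance `ℓ¹(G, Ω)` for a finitely generated abelian group `G` and a weight of
polynomial growth on the cyclic subgroups of the generators). -/
theorem result :
    (∀ ρ : ℕ → ℝ, (∀ k : ℕ, ∀ᶠ n : ℕ in atTop, (n : ℝ) ^ k ≤ ρ n) →
      ∃ Ω : ℤ → ℝ, IsWeight Ω ∧ (∀ n, Ω n ≤ Real.exp (Real.sqrt |(n : ℝ)|)) ∧
        (∃ n0 : ℕ, ∀ n : ℤ, n0 ≤ n.natAbs → Ω n ≤ ρ n.natAbs) ∧
        ∃ (A : Type) (_ : NormedCommRing A) (_ : NormedAlgebra ℂ A) (_ : CompleteSpace A),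
          IsBeurling Ω A ∧ (⊥ : Ideal A).jacobson = ⊥ ∧ (⊥ : Ideal A).jacobson ≠ ⊤ ∧
          WeaklyAmenable A ∧ ¬ HomomorphismProperty A ∧
          ∃ (B : Type) (_ : NormedCommRing B) (_ : NormedAlgebra ℂ B) (_ : CompleteSpace B)
            (φ ψ : A →ₐ[ℂ] B), Continuous φ ∧ Continuous ψ ∧ φ ≠ ψ ∧
              ∀ a, φ a - ψ a ∈ (⊥ : Ideal B).jacobson) ∧
    (∀ (Ω : ℤ → ℝ) (A : Type) [NormedCommRing A] [NormedAlgebra ℂ A] [CompleteSpace A],
      IsWeight Ω → IsBeurling Ω A → (∃ (C : ℝ) (k : ℕ), ∀ n : ℤ, Ω n ≤ C * (|(n : ℝ)| + 1) ^ k) →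
        WeaklyAmenable A → HomomorphismProperty A) ∧
    (∀ (A : Type) [NormedCommRing A] [NormedAlgebra ℂ A] [CompleteSpace A], WeaklyAmenable A →
      ∀ (m : ℕ) (g g' : Fin m → A), (∀ i, g i * g' i = 1) →
        Dense ((Algebra.adjoin ℂ (Set.range g ∪ Set.range g') : Subalgebra ℂ A) : Set A) →
        (∃ (C : ℝ) (k : ℕ), ∀ i (n : ℕ), ‖g i ^ n‖ ≤ C * ((n : ℝ) + 1) ^ k ∧
          ‖g' i ^ n‖ ≤ C * ((n : ℝ) + 1) ^ k) → HomomorphismProperty A) := by
  refine ⟨?_, ?_, ?_⟩
  · intro ρ hρ
    obtain ⟨Ω, h1, h2, h3, A, i1, i2, i3, ⟨h4, h5⟩, h6, h7, B, j1, j2, j3, φ, ψ, h8, h9, h10,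
      h11⟩ := Pool.Agent.Y257.HP.neg_main ρ hρ
    refine ⟨Ω, ⟨fun n => (h1 n).1, h2⟩, fun n => (h1 n).2, h3, A, i1, i2, i3, h6, h4, ?_, ?_, ?_,
      B, j1, j2, j3, φ, ψ, h8, h9, h10, h11⟩
    · rw [h4]
      exact bot_ne_top
    · intro D hD
      refine ⟨0, fun a x => ?_⟩
      rw [h7 D hD]
      simp
    · intro hH
      have := hH B (φ : A →ₙₐ[ℂ] B) (ψ : A →ₙₐ[ℂ] B) h8 h9 h11
      apply h10
      ext a
      exact congrArg (fun f : A →ₙₐ[ℂ] B => f a) this
  · intro Ω A _ _ _ _ hA hΩ hW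
    obtain ⟨C, k, hC⟩ := hΩ
    exact beurling hA hC hW
  · intro A _ _ _ hW m g g' hg hd hC
    obtain ⟨C, k, hC⟩ := hC
    exact fin_gen hW g g' hg hd C k (fun i n => (hC i n).1) (fun i n => (hC i n).2)

end Pool.Agent.Results.MP_7549e3_an.GrowthThreshold
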